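import Mathlib
import Pool.Agent.N678.SG.Parts

/-!
# Spherical cusp forms on `PGL(2)`: nontempered primes with prescribed signs

Let `π_1, ..., π_m` be distinct spherical cusp forms on `PGL(2)` over `ℚ`, `λ_i(p)` the normalised Hecke eigenvalue of
`π_i` at `p`. If `π_{i,p}` is not tempered then `λ_i(p)` is real with `|λ_i(p)| > 2`, so it has a sign. What is known
about the set of the primes at which all the `π_i` are not tempered comes from even functions of the eigenvalues and
does not see the signs: its density is at most `1/(34m+1)` (`MP_08cfa9_nt.ManyComponents`; `34/35` of the primes are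
good for `m = 1`, Kim and Shahidi). With the signs the decay is quadratic in `m`, and needs no hypothesis on the forms.

Given signs `ε_1, ..., ε_m`, we show for distinct forms of level one:

1. **all `π_{i,p}` are not tempered and `λ_i(p)` has the sign `ε_i` for all `i`** at a set of primes of upper Dirichlet
   density at most **`1 / (8m² + 5m + 1)`**;
2. for every unit vector `c ∈ ℝ^m` and `s ≥ 1`, **`∑ c_i λ_i(p) ≥ s`** for at most
   `1 / (1 + s² + (s² - 1)² / (2 - ∑ c_i⁴)) ≤ 2 / (s⁴ + 3)` of the primes: the bound which the second and the fourth moment of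
   a normal variable would give;
3. the number of the `i` for which `π_{i,p}` is not tempered and `λ_i(p)` has the sign `ε_i` is at least `(1/5 + δ) m` for
   at most `32 / (32 + 625 δ² m)` of the primes.

If moreover the representations `Sym³ π_i` are pairwise not isomorphic, and so are the `Sym⁴ π_i` and the
`Ad π_i ⊠ π_j` (`i ≠ j`), then these bounds become **`1 / (44m² + 10m + 1)`** in 1 and `421 / (421 + 19208 δ² m)` for
`(1/14 + δ) m` in 3, and, without signs,

4. all the `π_{i,p}` are not tempered for at most **`1 / (36m - 16)`** of the primes (better than `1/(34m+1)` for `m ≥ 9`).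

The bounds in 1 are the cases `T_i = 2` of a bound for the primes with `ε_i λ_i(p) ≥ T_i` for all `i`, for any list `A` of
representations that contains the trivial one: it is the inverse of the sum of the squares of the traces
of the representations of the list at `T`, e.g. `1` over the sum of the squares of the dimensions.

`Family α A` is what is used of the forms: the local components are unitary, and the Rankin-Selberg `L`-functions of the
pairs of the representations in the list `A` have their usual properties. For the list `short m`, that is `1`, `π_i`,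
`Ad π_i`, `π_i ⊠ π_j` (`i < j`), they are known for distinct forms of level one: the lifts exist (Gelbart and Jacquet;
Ramakrishnan) and are cuspidal, since a form of level one is not dihedral and distinct ones are not twists of each
other (there are no unramified characters of finite order over `ℚ`); for the same reason `Ad π_i` determines `π_i`
(Ramakrishnan), and `Λ²(π_i ⊠ π_j) = Ad π_i ⊞ Ad π_j` shows that the `π_i ⊠ π_j` are pairwise not isomorphic. For the
list `long m`, which has `Sym³ π_i`, `Sym⁴ π_i` and `Ad π_i ⊠ π_j` (`i ≠ j`) in addition (cuspidal for level one: Kim;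
Kim and Shahidi; Ramakrishnan and Wang), only that these are pairwise not isomorphic is not known in general
(`Sym³ π_i` and `π_j ⊠ π_k` are distinguished by `Λ²`). The properties of the `L`-functions are due to Jacquet,
Piatetski-Shapiro, Shalika, Moeglin, Waldspurger and Shahidi.

Proof: for real weights `w_a` the mean value over the primes of `(∑ w_a tr Π_a(p))²` is at most `∑ w_a²`.
-/

set_option autoImplicit false

namespace Pool.Agent.Results.MP_fa98d2_nt.PrescribedSigns

open Pool.Agent.N678.SG

/-- **Nontempered primes with prescribed signs for distinct spherical cusp forms on `PGL(2)`.** -/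
theorem result {m : ℕ} (hm : 0 < m) {α : Fin m → Nat.Primes → ℂ} (ε : Fin m → ℝ) (hε : ∀ i, ε i = 1 ∨ ε i = -1) :
    (∀ A : Finset (Rep m), Family α A → Rep.one ∈ A → ∀ T : Fin m → ℝ, (∀ i, 2 ≤ T i) →
      UpperDensityLe (fun p => ∀ i, T i ≤ ε i * lam α i p) (1 / ∑ a ∈ A, a.val T ^ 2)) ∧
    (Family α (short m) →
      UpperDensityLe (fun p => ∀ i, Exc α i (ε i) p) (1 / (8 * m ^ 2 + 5 * m + 1)) ∧
      (∀ c : Fin m → ℝ, ∑ i, c i ^ 2 = 1 → ∀ s : ℝ, 1 ≤ s → UpperDensityLe (fun p => s ≤ ∑ i, c i * lam α i p)
        (1 / (1 + s ^ 2 + (s ^ 2 - 1) ^ 2 / (2 - ∑ i, c i ^ 4)))) ∧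
      ∀ δ : ℝ, 0 < δ → UpperDensityLe (fun p => (1 / 5 + δ) * m ≤ count α ε p) (32 / (32 + 625 * δ ^ 2 * m))) ∧
    (Family α (long m) →
      UpperDensityLe (fun p => ∀ i, Exc α i (ε i) p) (1 / (44 * m ^ 2 + 10 * m + 1)) ∧
      UpperDensityLe (fun p => ∀ i, ‖α i p‖ ≠ 1) (1 / (36 * m - 16)) ∧
      ∀ δ : ℝ, 0 < δ →
        UpperDensityLe (fun p => (1 / 14 + δ) * m ≤ count α ε p) (421 / (421 + 19208 * δ ^ 2 * m))) := by
  have hε2 : ∀ i, ε i ^ 2 = 1 := fun i => by rcases hε i with h | h <;> rw [h] <;> norm_num
  refine ⟨fun A h hA T hT => signs h hA hε2 hT, fun h => ⟨?_, fun c hc s hs => linear h hc hs,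
    fun δ hδ => count_short h hm hε2 hδ⟩, fun h => ⟨?_, ?_, fun δ hδ => count_long h hm hε2 hδ⟩⟩
  · have h1 := signs h one_mem_short hε2 (T := fun _ => 2) fun _ => le_rfl
    rw [short_two] at h1
    exact h1.mono (fun p hp i => (hp i).two_le (hε2 i) h) le_rfl
  · have h1 := signs h one_mem_long hε2 (T := fun _ => 2) fun _ => le_rfl
    rw [long_two] at h1
    exact h1.mono (fun p hp i => (hp i).two_le (hε2 i) h) le_rfl
  · exact (all_large h hm).mono (fun p hp i => two_le_lam h (hp i)) le_rfl

end Pool.Agent.Results.MP_fa98d2_nt.PrescribedSigns
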